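import Mathlib
import Pool.Agent.W154.OC.Embed
import Pool.Agent.W154.OC.Tree

/-!
# Edge-ordered paths with finite but exponential order chromatic number

The path on `k = 4 d + 5` vertices carries an edge-ordering (two interleaved increasing runs which
meet in a small gadget) whose order chromatic number is finite but larger than `2 ^ d`.  So there is
no polynomial bound.
-/

set_option autoImplicit false

namespace Pool.Agent.Results.MP_dc39f7_co.ExponentialPaths

open SimpleGraph

/-- The edge-ordered graph `H` (a graph with a linear order on its edge set) contains the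
edge-ordered graph `F`: there is an injective homomorphism from `F` to `H` (that is, an isomorphism
of `F` with a subgraph of `H`) which respects the orders of the edges. -/
def Contains {W V : Type} (H : SimpleGraph W) (oH : LinearOrder H.edgeSet)
    (F : SimpleGraph V) (oF : LinearOrder F.edgeSet) : Prop :=
  ∃ f : F →g H, Function.Injective f ∧
    ∀ e e' : F.edgeSet, oF.lt e e' → oH.lt (f.mapEdgeSet e) (f.mapEdgeSet e')

/-- The order chromatic number: the least chromatic number of a finite graph `H` all of whose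
edge-orderings contain `F`, and `⊤` if there is no such graph. -/
noncomputable def orderChromaticNumber {V : Type} (F : SimpleGraph V)
    (oF : LinearOrder F.edgeSet) : ℕ∞ :=
  sInf {χ : ℕ∞ | ∃ (n : ℕ) (H : SimpleGraph (Fin n)),
    (∀ oH : LinearOrder H.edgeSet, Contains H oH F oF) ∧ χ = H.chromaticNumber}

open Pool.Agent.W154.OC

/-! ### The edge-ordering of the path -/

/-- smaller endpoint -/
def low {n : ℕ} (e : Sym2 (Fin n)) : ℕ :=
  Sym2.lift ⟨fun a b => min a.val b.val, fun _ _ => min_comm _ _⟩ e

theorem low_mk {n : ℕ} (a b : Fin n) : low s(a, b) = min a.val b.val := rfl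

theorem path_adj {n : ℕ} {a b : Fin n} :
    (pathGraph n).Adj a b ↔ a.val + 1 = b.val ∨ b.val + 1 = a.val := pathGraph_adj

theorem low_inj {n : ℕ} {e e' : Sym2 (Fin n)} (he : e ∈ (pathGraph n).edgeSet)
    (he' : e' ∈ (pathGraph n).edgeSet) (h : low e = low e') : e = e' := by
  induction e with | _ a b =>
  induction e' with | _ a' b' =>
  rw [mem_edgeSet, path_adj] at he he'
  rw [low_mk, low_mk] at h
  rw [Sym2.eq_iff]
  rcases he with h1 | h1 <;> rcases he' with h2 | h2
  · left; constructor <;> apply Fin.ext <;> omega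
  · right; constructor <;> apply Fin.ext <;> omega
  · right; constructor <;> apply Fin.ext <;> omega
  · left; constructor <;> apply Fin.ext <;> omega

theorem low_lt {n : ℕ} {e : Sym2 (Fin n)} (he : e ∈ (pathGraph n).edgeSet) : low e + 1 < n := by
  induction e with | _ a b =>
  rw [mem_edgeSet, path_adj] at he
  rw [low_mk]
  omega

/-- the label of an edge of the path -/
def labE (m : ℕ) (e : (pathGraph (2 * m + 5)).edgeSet) : ℕ := lab m (low e.1)

theorem labE_inj (m : ℕ) : Function.Injective (labE m) := by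
  intro e e' h
  have h1 := low_lt e.2
  have h2 := low_lt e'.2
  exact Subtype.ext (low_inj e.2 e'.2 (lab_inj (by omega) (by omega) h))

/-- the edge-ordering of the path -/
@[reducible] def pathOrder (m : ℕ) : LinearOrder (pathGraph (2 * m + 5)).edgeSet :=
  LinearOrder.lift' (labE m) (labE_inj m)

theorem pathOrder_lt {m : ℕ} {e e' : (pathGraph (2 * m + 5)).edgeSet} :
    (pathOrder m).lt e e' ↔ labE m e < labE m e' := Iff.rfl

/-- the edge `{t, t+1}` -/
def edg (m t : ℕ) (h : t ≤ 2 * m + 3) : (pathGraph (2 * m + 5)).edgeSet :=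
  ⟨s(⟨t, by omega⟩, ⟨t + 1, by omega⟩), by rw [mem_edgeSet, path_adj]; exact Or.inl rfl⟩

theorem labE_edg (m t : ℕ) (h : t ≤ 2 * m + 3) : labE m (edg m t h) = lab m t := by
  unfold labE edg
  rw [low_mk]
  congr 1
  simp

/-! ### Finiteness -/

/-- rank of an element in a finite linear order -/
theorem exists_rank {α : Type} [Finite α] (o : LinearOrder α) :
    ∃ φ : α → ℕ, Function.Injective φ ∧ ∀ a b, o.lt a b ↔ φ a < φ b := by
  classical
  let _ := o
  have := Fintype.ofFinite α
  refine ⟨fun a => (Finset.univ.filter (fun b => b < a)).card, ?_, ?_⟩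
  · intro a b h
    by_contra hne
    have key : ∀ a b : α, a < b → (Finset.univ.filter (fun x => x < a)).card <
        (Finset.univ.filter (fun x => x < b)).card := by
      intro a b hab
      apply Finset.card_lt_card
      rw [Finset.ssubset_iff_of_subset]
      · exact ⟨a, by simp [hab], by simp⟩
      · intro x hx
        simp only [Finset.mem_filter, Finset.mem_univ, true_and] at hx ⊢
        exact hx.trans hab
    rcases lt_or_gt_of_ne hne with h1 | h1
    · have := key a b h1
      simp only at h
      omega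
    · have := key b a h1
      simp only at h
      omega
  · intro a b
    have key : ∀ a b : α, a < b → (Finset.univ.filter (fun x => x < a)).card <
        (Finset.univ.filter (fun x => x < b)).card := by
      intro a b hab
      apply Finset.card_lt_card
      rw [Finset.ssubset_iff_of_subset]
      · exact ⟨a, by simp [hab], by simp⟩
      · intro x hx
        simp only [Finset.mem_filter, Finset.mem_univ, true_and] at hx ⊢
        exact hx.trans hab
    constructor
    · exact key a b
    · intro h
      change (Finset.univ.filter (fun x => x < a)).card <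
        (Finset.univ.filter (fun x => x < b)).card at h
      by_contra hc
      have hc' : b ≤ a := not_lt.1 hc
      rcases hc'.lt_or_eq with h1 | h1
      · have := key b a h1
        omega
      · subst h1
        omega

theorem finite_upper (m : ℕ) : ∃ N : ℕ, ∀ oH : LinearOrder (⊤ : SimpleGraph (Fin N)).edgeSet,
    Contains (⊤ : SimpleGraph (Fin N)) oH (pathGraph (2 * m + 5)) (pathOrder m) := by
  classical
  obtain ⟨N, hN⟩ := exists_path m
  refine ⟨N, fun oH => ?_⟩
  obtain ⟨φ, hφi, hφ⟩ := exists_rank oH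
  -- weights
  have hadj : ∀ a b : ℕ, ∀ ha : a < N, ∀ hb : b < N, a ≠ b →
      s((⟨a, ha⟩ : Fin N), (⟨b, hb⟩ : Fin N)) ∈ (⊤ : SimpleGraph (Fin N)).edgeSet := by
    intro a b ha hb hab
    rw [mem_edgeSet, top_adj]
    intro h
    exact hab (congrArg Fin.val h)
  let g : ℕ → ℕ → ℕ := fun a b =>
    if h : a < N ∧ b < N ∧ a ≠ b then φ ⟨s((⟨a, h.1⟩ : Fin N), (⟨b, h.2.1⟩ : Fin N)), hadj a b h.1 h.2.1 h.2.2⟩
    else 0
  have hgv : ∀ a b : ℕ, ∀ ha : a < N, ∀ hb : b < N, ∀ hab : a ≠ b,
      g a b = φ ⟨s((⟨a, ha⟩ : Fin N), (⟨b, hb⟩ : Fin N)), hadj a b ha hb hab⟩ := by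
    intro a b ha hb hab
    simp only [g]
    rw [dif_pos ⟨ha, hb, hab⟩]
  have hg : Wt N g := by
    constructor
    · intro a b
      by_cases h : a < N ∧ b < N ∧ a ≠ b
      · obtain ⟨ha, hb, hab⟩ := h
        rw [hgv a b ha hb hab, hgv b a hb ha hab.symm]
        congr 1
        exact Subtype.ext Sym2.eq_swap
      · have h' : ¬ (b < N ∧ a < N ∧ b ≠ a) := fun h'' => h ⟨h''.2.1, h''.1, h''.2.2.symm⟩
        simp only [g]
        rw [dif_neg h, dif_neg h']
    · intro a b c d hab hb hcd hd he
      rw [hgv a b (by omega) hb (by omega), hgv c d (by omega) hd (by omega)] at he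
      have h1 := congrArg Subtype.val (hφi he)
      simp only [Sym2.eq_iff, Fin.mk.injEq] at h1
      omega
  obtain ⟨x, hx1, hx2, hx3⟩ := hN g hg
  -- the homomorphism
  let f : Fin (2 * m + 5) → Fin N := fun t => ⟨x t.val, hx1 t.val (by omega)⟩
  have hf : Function.Injective f := by
    intro a b h
    have := hx2 a.val b.val (by omega) (by omega) (congrArg Fin.val h)
    exact Fin.ext this
  let F : pathGraph (2 * m + 5) →g (⊤ : SimpleGraph (Fin N)) :=
    ⟨f, fun {a b} h => by rw [top_adj]; exact fun e => h.ne (hf e)⟩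
  refine ⟨F, hf, ?_⟩
  have hval : ∀ e : (pathGraph (2 * m + 5)).edgeSet,
      φ (F.mapEdgeSet e) = g (x (low e.1)) (x (low e.1 + 1)) := by
    rintro ⟨e, he⟩
    induction e with | _ a b =>
    rw [mem_edgeSet, path_adj] at he
    simp only [low_mk]
    rcases he with h | h
    · have e1 : min a.val b.val = a.val := by omega
      have e2 : min a.val b.val + 1 = b.val := by omega
      have hne : x a.val ≠ x b.val := fun hh => by
        have := hx2 a.val b.val (by omega) (by omega) hh
        omega
      rw [e2, e1, hgv _ _ (hx1 _ (by omega)) (hx1 _ (by omega)) hne]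
      rfl
    · have e1 : min a.val b.val = b.val := by omega
      have e2 : min a.val b.val + 1 = a.val := by omega
      have hne : x b.val ≠ x a.val := fun hh => by
        have := hx2 b.val a.val (by omega) (by omega) hh
        omega
      rw [e2, e1, hgv _ _ (hx1 _ (by omega)) (hx1 _ (by omega)) hne]
      congr 1
      exact Subtype.ext Sym2.eq_swap
  intro e e' hee
  rw [pathOrder_lt] at hee
  rw [hφ, hval, hval]
  have h1 := low_lt e.2
  have h2 := low_lt e'.2
  exact hx3 _ _ (by omega) (by omega) hee

/-! ### The lower bound -/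

theorem lower {n d : ℕ} (H : SimpleGraph (Fin n)) (hcol : H.Colorable (2 ^ d)) :
    ∃ oH : LinearOrder H.edgeSet,
      ¬ Contains H oH (pathGraph (2 * (2 * d) + 5)) (pathOrder (2 * d)) := by
  classical
  obtain ⟨C⟩ := hcol
  let c : ℕ → ℕ := fun a => if h : a < n then (C ⟨a, h⟩).val else 0
  have hc : ∀ a, c a < 2 ^ d := by
    intro a
    simp only [c]
    split_ifs with h
    · exact (C ⟨a, h⟩).isLt
    · positivity
  have hcv : ∀ a : Fin n, c a.val = (C a).val := by
    intro a
    simp only [c]
    rw [dif_pos a.isLt]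
  have hcne : ∀ a b : Fin n, H.Adj a b → c a.val ≠ c b.val := by
    intro a b hab h
    rw [hcv, hcv] at h
    exact C.valid hab (Fin.ext h)
  -- the key of an edge
  let key : Sym2 (Fin n) → ℕ := Sym2.lift ⟨fun a b =>
    if c a.val = c b.val then 0 else K n c a.val b.val, fun a b => by
      show (if c a.val = c b.val then 0 else K n c a.val b.val) =
        (if c b.val = c a.val then 0 else K n c b.val a.val)
      by_cases h : c a.val = c b.val
      · rw [if_pos h, if_pos h.symm]
      · rw [if_neg h, if_neg (Ne.symm h)]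
        exact K_symm h⟩
  have hkey : ∀ a b : Fin n, H.Adj a b → key s(a, b) = K n c a.val b.val := by
    intro a b hab
    show (if c a.val = c b.val then 0 else K n c a.val b.val) = _
    rw [if_neg (hcne a b hab)]
  have hinj : Function.Injective (fun e : H.edgeSet => key e.1) := by
    rintro ⟨e, he⟩ ⟨e', he'⟩ h
    induction e with | _ a b =>
    induction e' with | _ a' b' =>
    rw [mem_edgeSet] at he he'
    simp only at h
    rw [hkey a b he, hkey a' b' he'] at h
    apply Subtype.ext
    simp only
    rw [Sym2.eq_iff]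
    rcases K_inj a.isLt b.isLt a'.isLt b'.isLt h with ⟨h1, h2⟩ | ⟨h1, h2⟩
    · exact Or.inl ⟨Fin.ext h1, Fin.ext h2⟩
    · exact Or.inr ⟨Fin.ext h1, Fin.ext h2⟩
  refine ⟨LinearOrder.lift' (fun e : H.edgeSet => key e.1) hinj, ?_⟩
  rintro ⟨f, hf, hord⟩
  let x : ℕ → ℕ := fun t => if h : t < 2 * (2 * d) + 5 then (f ⟨t, h⟩).val else 0
  have hxv : ∀ t, ∀ h : t < 2 * (2 * d) + 5, x t = (f ⟨t, h⟩).val := by
    intro t h
    simp only [x]
    rw [dif_pos h]
  have hadj : ∀ t, ∀ h : t + 1 < 2 * (2 * d) + 5, H.Adj (f ⟨t, by omega⟩) (f ⟨t + 1, h⟩) := by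
    intro t h
    apply f.map_rel
    rw [path_adj]
    exact Or.inl rfl
  refine no_copy (n := n) (d := d) (c := c) (x := x) ?_ ?_ hc ?_ ?_
  · intro t ht
    rw [hxv t (by omega)]
    exact (f _).isLt
  · intro t t' ht ht' h
    rw [hxv t (by omega), hxv t' (by omega)] at h
    have := hf (Fin.ext h)
    simpa using this
  · intro t ht
    rw [hxv t (by omega), hxv (t + 1) (by omega)]
    exact hcne _ _ (hadj t (by omega))
  · intro t t' ht ht' hl
    have h1 := hord (edg (2 * d) t (by omega)) (edg (2 * d) t' (by omega)) (by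
      rw [pathOrder_lt, labE_edg, labE_edg]; exact hl)
    have h2 : key (f.mapEdgeSet (edg (2 * d) t (by omega))).1 <
      key (f.mapEdgeSet (edg (2 * d) t' (by omega))).1 := h1
    have h3 : ∀ s, ∀ hs : s ≤ 2 * (2 * d) + 3, key (f.mapEdgeSet (edg (2 * d) s hs)).1 =
        K n c (x s) (x (s + 1)) := by
      intro s hs
      rw [hxv s (by omega), hxv (s + 1) (by omega)]
      exact hkey _ _ (hadj s (by omega))
    rw [h3, h3] at h2
    exact h2

/-- **Edge-ordered paths with finite, exponentially large order chromatic number.** For every `d`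
some edge-ordering of the path with `4 d + 5` vertices has a finite order chromatic number which is
larger than `2 ^ d`. -/
theorem result (d : ℕ) : ∃ o : LinearOrder (pathGraph (4 * d + 5)).edgeSet,
    (2 : ℕ∞) ^ d < orderChromaticNumber (pathGraph (4 * d + 5)) o ∧
      orderChromaticNumber (pathGraph (4 * d + 5)) o < ⊤ := by
  have h4 : 4 * d + 5 = 2 * (2 * d) + 5 := by ring
  rw [h4]
  refine ⟨pathOrder (2 * d), ?_, ?_⟩
  · have h1 : ((2 ^ d : ℕ) : ℕ∞) + 1 ≤
        orderChromaticNumber (pathGraph (2 * (2 * d) + 5)) (pathOrder (2 * d)) := by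
      apply le_sInf
      rintro χ ⟨n, H, hH, rfl⟩
      by_contra hcon
      have h2 : H.chromaticNumber ≤ ((2 ^ d : ℕ) : ℕ∞) := by
        rw [not_le] at hcon
        exact Order.le_of_lt_add_one hcon
      rw [chromaticNumber_le_iff_colorable] at h2
      obtain ⟨oH, ho⟩ := lower H h2
      exact ho (hH oH)
    have h3 : (2 : ℕ∞) ^ d = ((2 ^ d : ℕ) : ℕ∞) := by push_cast; rfl
    rw [h3]
    exact (ENat.add_one_le_iff (ENat.natCast_ne_top _)).1 h1
  · obtain ⟨N, hN⟩ := finite_upper (2 * d)
    have h1 : orderChromaticNumber (pathGraph (2 * (2 * d) + 5)) (pathOrder (2 * d)) ≤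
        (⊤ : SimpleGraph (Fin N)).chromaticNumber := sInf_le ⟨N, ⊤, hN, rfl⟩
    refine lt_of_le_of_lt h1 ?_
    have h2 : (⊤ : SimpleGraph (Fin N)).chromaticNumber ≤ (N : ℕ∞) := by
      rw [chromaticNumber_le_iff_colorable]
      have := (⊤ : SimpleGraph (Fin N)).colorable_of_fintype
      rwa [Fintype.card_fin] at this
    exact lt_of_le_of_lt h2 (ENat.natCast_lt_top _)

/-- The negated form of the posed question: no polynomial bounds the finite order chromatic numbers
of the edge-ordered paths on `k` vertices. -/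
theorem no_polynomial (p : Polynomial ℝ) : ∃ k : ℕ, 2 ≤ k ∧
    ∃ o : LinearOrder (pathGraph k).edgeSet, ∃ χ : ℕ,
      orderChromaticNumber (pathGraph k) o = χ ∧ p.eval (k : ℝ) < χ := by
  have hev : ∀ᶠ d : ℕ in Filter.atTop, p.eval (((4 * d + 5 : ℕ) : ℕ) : ℝ) < (2:ℝ) ^ d := by
    have h1 : (fun d : ℕ => (p.comp (4 * Polynomial.X + 5)).eval (d : ℝ)) =o[Filter.atTop]
        fun d : ℕ => (2:ℝ) ^ d := by
      simp only [Polynomial.eval_eq_sum_range]
      apply Asymptotics.IsLittleO.fun_sum
      intro i _
      exact (isLittleO_pow_const_const_pow_of_one_lt i (by norm_num : (1:ℝ) < 2)).const_mul_left _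
    have h2 := h1.bound (by norm_num : (0:ℝ) < 1 / 2)
    filter_upwards [h2] with d hd
    rw [Real.norm_eq_abs, Real.norm_eq_abs, abs_of_pos (by positivity : (0:ℝ) < 2 ^ d)] at hd
    have h3 : p.eval (((4 * d + 5 : ℕ) : ℕ) : ℝ) = (p.comp (4 * Polynomial.X + 5)).eval (d : ℝ) := by
      rw [Polynomial.eval_comp]
      simp
    rw [h3]
    have h4 := le_abs_self ((p.comp (4 * Polynomial.X + 5)).eval (d : ℝ))
    have h5 : (0:ℝ) < 2 ^ d := by positivity
    linarith
  obtain ⟨d, hd⟩ := hev.exists
  obtain ⟨o, h1, h2⟩ := result d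
  obtain ⟨χ, hχ⟩ := ENat.ne_top_iff_exists.1 h2.ne
  refine ⟨4 * d + 5, by omega, o, χ, hχ.symm, ?_⟩
  rw [← hχ] at h1
  have h3 : (2 ^ d : ℕ) < χ := by exact_mod_cast h1
  have h4 : (2:ℝ) ^ d < χ := by exact_mod_cast h3
  exact hd.trans h4

end Pool.Agent.Results.MP_dc39f7_co.ExponentialPaths
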